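import Pool.Agent.H.MP_848d58_co.D

namespace Pool.Agent.Results.MP_172133_co.All

open Pool.Agent.H.MP_848d58_co

theorem result (G : Type) [Group G] [Fintype G] [DecidableEq G] [Nontrivial G] (r : ℕ) :
    ∃ (V : Type) (_ : Fintype V) (_ : DecidableEq V) (_ : MulAction G V) (K : Set (Finset V)),
      FreeCx G K ∧ ∃ m n : ℕ, IsLeast {k | IndLe G K k} m ∧
        IsLeast {k | XindSdLe G k r V K} n ∧ m < n := by
  obtain ⟨V, _, _, _, K, h, n, h'⟩ := subdiv (G := G) r
  exact ⟨V, _, _, _, K, h, 1, n, h'⟩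

end Pool.Agent.Results.MP_172133_co.All
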